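import Pool.Agent.H458R6.Main
import Pool.Agent.H458R6.Prod
import Pool.Agent.H458R6.Tri
import Pool.Agent.H458R6.Matrix

/-!
# Hurewicz concentrated sets without the semifilter trichotomy

In ZFC, every `b`-concentrated set of size less than the splitting number `s` is Hurewicz and
productively Hurewicz. If `b < s` and each family of at least `s` functions has a bounded subfamily
of size `b` then all `b`-concentrated sets have size less than `s`, hence all of them are
productively Hurewicz; if moreover the reaping number is the continuum then the semifilter
trichotomy fails. All these hypotheses follow from the existence of a matrix of families of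
functions as given by the intermediate models of the matrix iteration of Brendle and Fischer
(Mad families, splitting families and large continuum, 2011), which forces `b = κ < s = λ = 𝔠`. So
in this model every `b`-concentrated set is Hurewicz but the semifilter trichotomy fails.
-/

namespace Pool.Agent.Results.MP_0d4624_gt.SmallConcentrated

open Cardinal Pool.Agent.H458R6

/-- All products with Hurewicz subsets of second countable spaces are Hurewicz. -/
def ProductivelyHurewicz (X : Set (ℕ → Bool)) : Prop :=
  ∀ (β : Type) [TopologicalSpace β] [SecondCountableTopology β] (Y : Set β),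
    Hurewicz Y → Hurewicz (X ×ˢ Y)

/-- Concentrated sets are Hurewicz, and the semifilter trichotomy fails, under hypotheses which
hold in the matrix model. -/
theorem result :
    (∀ X : Set (ℕ → Bool), Concentrated X → #X < sNum →
      Hurewicz X ∧ ProductivelyHurewicz X) ∧
    (∀ μ : Cardinal.{0}, bNum < μ → BoundedSubfamilies μ →
      ∀ X : Set (ℕ → Bool), Concentrated X → #X < μ) ∧
    (bNum < sNum → BoundedSubfamilies sNum → rNum = 𝔠 →
      (∀ X : Set (ℕ → Bool), Concentrated X → Hurewicz X ∧ ProductivelyHurewicz X) ∧
        ¬ SemifilterTrichotomy) ∧
    (HasMatrix →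
      (∀ X : Set (ℕ → Bool), Concentrated X → Hurewicz X ∧ ProductivelyHurewicz X) ∧
        ¬ SemifilterTrichotomy) := by
  have hA : ∀ X : Set (ℕ → Bool), Concentrated X → #X < sNum →
      Hurewicz X ∧ ProductivelyHurewicz X := fun X hX hs =>
    ⟨hurewicz_of_small X hX hs, fun _ _ _ Y hY => prodHurewicz_of_small X hX hs Y hY⟩
  have hC : bNum < sNum → BoundedSubfamilies sNum → rNum = 𝔠 →
      (∀ X : Set (ℕ → Bool), Concentrated X → Hurewicz X ∧ ProductivelyHurewicz X) ∧
        ¬ SemifilterTrichotomy := fun hbs hN hr =>
    ⟨fun X hX => hA X hX (card_lt_of_boundedSubfamilies sNum hbs hN X hX), not_trichotomy hr⟩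
  refine ⟨hA, card_lt_of_boundedSubfamilies, hC, fun hM => ?_⟩
  obtain ⟨h1, h2, h3⟩ := matrix_consequences hM
  exact hC h1 (boundedSubfamilies_of_rowCover h2 sNum h1) h3

end Pool.Agent.Results.MP_0d4624_gt.SmallConcentrated
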